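import Pool.Agent.H80.HS.Targets

namespace Pool.Agent.H11.HS.S2
open MeasureTheory Set Pool.Agent.H80.HS
open scoped ContDiff ENNReal

theorem s2 : T_S2 := by
  intro n f hf
  have hm3 : Measurable fun r : (V n × ℝ) × V n =>
      f (r.1.1, r.2, r.1.2 - 2 * inner ℝ r.1.1 r.2) := by
    refine hf.comp ?_
    have hc : Continuous fun r : (V n × ℝ) × V n =>
        ((r.1.1, r.2, r.1.2 - 2 * inner ℝ r.1.1 r.2) : H n) := by fun_prop
    exact hc.measurable
  have h1 : ∫⁻ p : H n, f p = ∫⁻ x : V n, ∫⁻ r : V n × ℝ, f (x, r) :=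
    lintegral_prod f hf.aemeasurable
  have h2 : ∀ x : V n, ∫⁻ r : V n × ℝ, f (x, r) =
      ∫⁻ s : ℝ, ∫⁻ y : V n, f (x, y, s - 2 * inner ℝ x y) := by
    intro x
    have hmx : Measurable fun r : V n × ℝ => f (x, r) := hf.comp (by fun_prop)
    have e1 : ∫⁻ r : V n × ℝ, f (x, r) = ∫⁻ y : V n, ∫⁻ t : ℝ, f (x, (y, t)) :=
      lintegral_prod (fun r : V n × ℝ => f (x, r)) hmx.aemeasurable
    rw [e1]
    have e2 : ∀ y : V n, ∫⁻ t : ℝ, f (x, (y, t)) =
        ∫⁻ t : ℝ, f (x, (y, t - 2 * inner ℝ x y)) := fun y =>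
      (lintegral_sub_right_eq_self (fun t : ℝ => f (x, (y, t))) (2 * inner ℝ x y)).symm
    simp only [e2]
    refine lintegral_lintegral_swap ?_
    have hc2 : Continuous fun r : V n × ℝ =>
        ((x, r.1, r.2 - 2 * inner ℝ x r.1) : H n) := by fun_prop
    exact (hf.comp hc2.measurable).aemeasurable
  have h3 : ∫⁻ q : V n × ℝ, ∫⁻ y : V n, f (q.1, y, q.2 - 2 * inner ℝ q.1 y) =
      ∫⁻ x : V n, ∫⁻ s : ℝ, ∫⁻ y : V n, f (x, y, s - 2 * inner ℝ x y) := by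
    have hm : Measurable fun q : V n × ℝ =>
        ∫⁻ y : V n, f (q.1, y, q.2 - 2 * inner ℝ q.1 y) := hm3.lintegral_prod_right'
    exact lintegral_prod _ hm.aemeasurable
  rw [h1, h3]
  exact lintegral_congr h2

end Pool.Agent.H11.HS.S2
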