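import Pool.Agent.H80.HS.Targets

namespace Pool.Agent.H11.HS.S4
open MeasureTheory Set Pool.Agent.H80.HS
open scoped ContDiff ENNReal

/-- norm of a functional on Euclidean space -/
theorem norm_func {n : ℕ} (L : V n →L[ℝ] ℝ) :
    ‖L‖ = Real.sqrt (∑ j, ‖L (EuclideanSpace.single j (1 : ℝ))‖ ^ 2) := by
  set v : V n := (InnerProductSpace.toDual ℝ (V n)).symm L with hv
  have h1 : ‖v‖ = ‖L‖ := by rw [hv]; exact LinearIsometryEquiv.norm_map _ _
  rw [← h1, EuclideanSpace.norm_eq]
  congr 1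
  refine Finset.sum_congr rfl fun j _ => ?_
  have h2 : L (EuclideanSpace.single j (1 : ℝ)) = v j := by
    have h3 : inner ℝ v (EuclideanSpace.single j (1 : ℝ)) = L (EuclideanSpace.single j (1 : ℝ)) := by
      rw [hv]
      exact InnerProductSpace.toDual_symm_apply
    rw [← h3, EuclideanSpace.inner_single_right]
    simp
  rw [h2]

theorem s4 : T_S4 := by
  intro n w x s hw
  have hm : ContDiff ℝ 1 (fun y : V n => ((x, y, s - 2 * inner ℝ x y) : H n)) := by
    have h0 : ContDiff ℝ 1 fun y : V n => inner ℝ x y := contDiff_const.inner ℝ contDiff_id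
    exact contDiff_const.prodMk (contDiff_id.prodMk (contDiff_const.sub (contDiff_const.mul h0)))
  refine ⟨hw.comp hm, fun y => ?_⟩
  rw [norm_func]
  unfold gY
  congr 1
  refine Finset.sum_congr rfl fun j _ => ?_
  congr 2
  unfold Y
  have h1 : HasFDerivAt (fun y : V n => ((x, y, s - 2 * inner ℝ x y) : H n))
      ((0 : V n →L[ℝ] V n).prod ((ContinuousLinearMap.id ℝ (V n)).prod
        (0 - (2 : ℝ) • (innerSL ℝ x)))) y := by
    refine (hasFDerivAt_const x y).prodMk ((hasFDerivAt_id y).prodMk ?_)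
    refine (hasFDerivAt_const s y).sub ?_
    exact (innerSL ℝ x).hasFDerivAt.const_mul 2
  have h2 : HasFDerivAt w (fderiv ℝ w (x, y, s - 2 * inner ℝ x y)) (x, y, s - 2 * inner ℝ x y) :=
    (hw.differentiable one_ne_zero _).hasFDerivAt
  have h3 := (h2.comp y h1).fderiv
  have h4 : fderiv ℝ (fun y : V n => w (x, y, s - 2 * inner ℝ x y)) y =
      (fderiv ℝ w (x, y, s - 2 * inner ℝ x y)).comp
        ((0 : V n →L[ℝ] V n).prod ((ContinuousLinearMap.id ℝ (V n)).prod
        (0 - (2 : ℝ) • (innerSL ℝ x)))) := h3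
  rw [h4, ContinuousLinearMap.comp_apply]
  congr 1
  show ((0 : V n), (EuclideanSpace.single j (1 : ℝ) : V n),
    (0 : ℝ) - 2 * inner ℝ x (EuclideanSpace.single j (1 : ℝ))) = _
  rw [EuclideanSpace.inner_single_right]
  simp

end Pool.Agent.H11.HS.S4
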